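import Mathlib

set_option autoImplicit false

/-!
# A latin square with a `5`-multiplex but no `5`-plex

The square `T` below has order `6`.  It has a `3`-plex and a `2`-plex, whose multiset union is a
`5`-multiplex, but it has no transversal, hence (taking complements) no `5`-plex.
-/

namespace Pool.Agent.Results.MP_a6ecd6_co.NoFivePlex

/-- `Q` is a `d`-dimensional latin hypercube of order `n`: varying one coordinate and keeping the
others fixed produces every symbol exactly once. -/
def IsLatinHypercube {d n : ℕ} (Q : (Fin d → Fin n) → Fin n) : Prop :=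
  ∀ (i : Fin d) (x : Fin d → Fin n), Function.Bijective (fun a => Q (Function.update x i a))

/-- `K` (a multiplicity for every cell) is a `k`-multiplex of `Q`: every hyperplane `x i = a`
contains exactly `k` elements of `K` and every symbol occurs exactly `k` times in `K`, counted
with multiplicity. -/
def IsMultiplex {d n : ℕ} (Q : (Fin d → Fin n) → Fin n) (k : ℕ)
    (K : (Fin d → Fin n) → ℕ) : Prop :=
  (∀ (i : Fin d) (a : Fin n), ∑ x with x i = a, K x = k) ∧
    ∀ s : Fin n, ∑ x with Q x = s, K x = k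

/-- `K` is a `k`-plex of `Q`: a `k`-multiplex in which no cell is repeated. -/
def IsPlex {d n : ℕ} (Q : (Fin d → Fin n) → Fin n) (k : ℕ) (K : (Fin d → Fin n) → ℕ) : Prop :=
  IsMultiplex Q k K ∧ ∀ x, K x ≤ 1

/-- A latin square of order `6` without transversals. -/
def T : Fin 6 → Fin 6 → Fin 6 :=
  ![![0, 3, 1, 2, 4, 5],
   ![1, 4, 5, 0, 3, 2],
   ![2, 0, 4, 3, 5, 1],
   ![5, 2, 3, 4, 1, 0],
   ![4, 1, 0, 5, 2, 3],
   ![3, 5, 2, 1, 0, 4]]

/-- Multiplicities of a `5`-multiplex of `T`. -/
def M : Fin 6 → Fin 6 → ℕ :=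
  ![![2, 2, 1, 0, 0, 0],
   ![2, 1, 1, 0, 0, 1],
   ![1, 0, 1, 1, 2, 0],
   ![0, 0, 1, 2, 0, 2],
   ![0, 1, 0, 1, 2, 1],
   ![0, 1, 1, 1, 1, 1]]

/-- `T` as a `2`-dimensional hypercube. -/
def Q (x : Fin 2 → Fin 6) : Fin 6 := T (x 0) (x 1)

theorem T_row : ∀ i, Function.Injective (T i) := by decide +kernel

theorem T_col : ∀ j, Function.Injective (fun i => T i j) := by decide +kernel

theorem Q_latin : IsLatinHypercube Q := by
  intro i x
  apply Finite.injective_iff_bijective.mp
  intro a b hab
  fin_cases i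
  · simp only [Q, Fin.zero_eta, Function.update_self] at hab
    rw [Function.update_of_ne (by decide), Function.update_of_ne (by decide)] at hab
    exact T_col (x 1) hab
  · simp only [Q, Fin.mk_one, Function.update_self] at hab
    rw [Function.update_of_ne (by decide), Function.update_of_ne (by decide)] at hab
    exact T_row (x 0) hab

/-- A sum over cells of a property of the square as a double sum. -/
theorem sum_cells (f : Fin 6 → Fin 6 → ℕ) :
    ∑ x : Fin 2 → Fin 6, f (x 0) (x 1) = ∑ i, ∑ j, f i j := by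
  rw [← Finset.sum_product']
  exact Fintype.sum_equiv (piFinTwoEquiv (fun _ => Fin 6)) _ _ (fun _ => rfl)

theorem multiplex : IsMultiplex Q 5 (fun x => M (x 0) (x 1)) := by
  refine ⟨?_, ?_⟩
  · intro i a
    rw [Finset.sum_filter]
    fin_cases i
    · show ∑ x : Fin 2 → Fin 6, (if x 0 = a then M (x 0) (x 1) else 0) = 5
      rw [sum_cells (fun i j => if i = a then M i j else 0)]
      revert a
      decide +kernel
    · show ∑ x : Fin 2 → Fin 6, (if x 1 = a then M (x 0) (x 1) else 0) = 5
      rw [sum_cells (fun i j => if j = a then M i j else 0)]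
      revert a
      decide +kernel
  · intro s
    rw [Finset.sum_filter]
    show ∑ x : Fin 2 → Fin 6, (if T (x 0) (x 1) = s then M (x 0) (x 1) else 0) = 5
    rw [sum_cells (fun i j => if T i j = s then M i j else 0)]
    revert s
    decide +kernel

theorem no_transversal : ∀ σ : Equiv.Perm (Fin 6), ∃ i j, i ≠ j ∧ T i (σ i) = T j (σ j) := by
  decide +kernel

/-- If six numbers at most `1` (indexed by a six-element set) sum to `5`, exactly one is zero. -/
theorem unique_zero {α : Type*} [DecidableEq α] (S : Finset α) (hS : S.card = 6) (f : α → ℕ)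
    (hf : ∀ x, f x ≤ 1) (hsum : ∑ x ∈ S, f x = 5) : ∃! x, x ∈ S ∧ f x = 0 := by
  have h1 : ∑ x ∈ S, f x = (S.filter (fun x => f x ≠ 0)).card := by
    rw [Finset.card_filter]
    apply Finset.sum_congr rfl
    intro x _
    have := hf x
    split_ifs with h <;> omega
  have h2 := Finset.card_filter_add_card_filter_not (s := S) (fun x => f x = 0)
  have h3 : (S.filter (fun x => f x = 0)).card = 1 := by
    rw [hsum] at h1
    simp only [ne_eq] at h1
    omega
  rw [Finset.card_eq_one] at h3
  obtain ⟨a, ha⟩ := h3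
  refine ⟨a, ?_, ?_⟩
  · have : a ∈ S.filter (fun x => f x = 0) := by rw [ha]; exact Finset.mem_singleton_self a
    exact Finset.mem_filter.mp this
  · intro b hb
    have : b ∈ S.filter (fun x => f x = 0) := Finset.mem_filter.mpr hb
    rw [ha] at this
    exact Finset.mem_singleton.mp this

theorem no_plex : ¬ ∃ K, IsPlex Q 5 K := by
  rintro ⟨K, ⟨hH, hS⟩, h1⟩
  have cardH : ∀ (i : Fin 2) (a : Fin 6),
      (Finset.univ.filter (fun x : Fin 2 → Fin 6 => x i = a)).card = 6 := by
    decide +kernel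
  have cardS : ∀ s : Fin 6, (Finset.univ.filter (fun x : Fin 2 → Fin 6 => Q x = s)).card = 6 := by
    decide +kernel
  have zH : ∀ (i : Fin 2) (a : Fin 6), ∃! x : Fin 2 → Fin 6, x i = a ∧ K x = 0 := by
    intro i a
    have := unique_zero _ (cardH i a) K h1 (hH i a)
    simpa using this
  have zS : ∀ s : Fin 6, ∃! x : Fin 2 → Fin 6, Q x = s ∧ K x = 0 := by
    intro s
    have := unique_zero _ (cardS s) K h1 (hS s)
    simpa using this
  choose X hX hXu using zH 0
  -- the zero cell of row `a` is `X a`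
  have hinj : Function.Injective (fun a => X a 1) := by
    intro a b hab
    have hab' : X a 1 = X b 1 := hab
    have e := (zH 1 (X a 1)).unique ⟨rfl, (hX a).2⟩ ⟨hab'.symm, (hX b).2⟩
    rw [← (hX a).1, ← (hX b).1, e]
  let σ : Equiv.Perm (Fin 6) := Equiv.ofBijective _ (Finite.injective_iff_bijective.mp hinj)
  obtain ⟨a, b, hne, heq⟩ := no_transversal σ
  apply hne
  have ha : Q (X a) = T a (σ a) := by
    show T (X a 0) (X a 1) = T a (X a 1)
    rw [(hX a).1]
  have hb : Q (X b) = T b (σ b) := by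
    show T (X b 0) (X b 1) = T b (X b 1)
    rw [(hX b).1]
  have e := (zS (Q (X a))).unique ⟨rfl, (hX a).2⟩ ⟨by rw [ha, hb, heq], (hX b).2⟩
  rw [← (hX a).1, ← (hX b).1, e]

/-- There are `d ≥ 2`, `n ≥ 1`, `1 ≤ k ≤ n ^ (d - 1)` and a `d`-dimensional latin hypercube of
order `n` that has a `k`-multiplex but no `k`-plex. -/
theorem result :
    ∃ (d n k : ℕ), 2 ≤ d ∧ 1 ≤ n ∧ 1 ≤ k ∧ k ≤ n ^ (d - 1) ∧
      ∃ Q : (Fin d → Fin n) → Fin n, IsLatinHypercube Q ∧
        (∃ K, IsMultiplex Q k K) ∧ ¬ ∃ K, IsPlex Q k K :=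
  ⟨2, 6, 5, by norm_num, by norm_num, by norm_num, by norm_num, Q, Q_latin, ⟨_, multiplex⟩, no_plex⟩

end Pool.Agent.Results.MP_a6ecd6_co.NoFivePlex
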